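import Pool.Agent.Y198.DC.Stm

universe u

open CategoryTheory IsLocalRing

namespace Pool.Agent.Y115.DC

open H503R3.CC Pool.Agent.Y198.DC

section

variable {R : Type u} [CommRing R] [IsDomain R] {x y w : R}

/-- the homomorphism `b ↦ b w / x` of the ideal `(x, w)` -/
noncomputable def mu (h : Pinch x y w) :
    LinearMap.ker (Submodule.mkQ (Ideal.span {x, w} : Ideal R)) →ₗ[R] R :=
  (-((LinearMap.fst R R R).comp ((LinearMap.ker (pinchMap x w)).subtype.comp
    h.kerEquiv.symm.toLinearMap))).comp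
      (LinearEquiv.ofEq _ _ (Submodule.ker_mkQ (Ideal.span {x, w} : Ideal R))).toLinearMap

theorem mu_mul (h : Pinch x y w)
    (b : LinearMap.ker (Submodule.mkQ (Ideal.span {x, w} : Ideal R))) :
    mu h b * x = (b : R) * w := by
  set b' : (Ideal.span {x, w} : Ideal R) :=
    LinearEquiv.ofEq _ _ (Submodule.ker_mkQ (Ideal.span {x, w} : Ideal R)) b with hb'
  have h1 : mu h b = -(h.kerEquiv.symm b' : LinearMap.ker (pinchMap x w)).1.1 := rfl
  have h2 : (h.kerEquiv.symm b' : LinearMap.ker (pinchMap x w)).1.1 * x +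
      (h.kerEquiv.symm b' : LinearMap.ker (pinchMap x w)).1.2 * w = 0 :=
    congrArg Subtype.val (LinearMap.mem_ker.mp (h.kerEquiv.symm b').2)
  have h3 : (h.kerEquiv.symm b' : LinearMap.ker (pinchMap x w)).1.2 = (b' : R) := by
    have h4 : h.kerEquiv (h.kerEquiv.symm b') = b' := LinearEquiv.apply_symm_apply _ _
    exact congrArg Subtype.val h4
  have h5 : (b' : R) = (b : R) := rfl
  rw [h3, h5] at h2
  rw [h1]
  linear_combination -h2

theorem decomp (h : Pinch x y w)
    (f : LinearMap.ker (Submodule.mkQ (Ideal.span {x, w} : Ideal R)) →ₗ[R] R) :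
    ∃ s t : R, f = s • (LinearMap.ker (Submodule.mkQ (Ideal.span {x, w} : Ideal R))).subtype +
      t • mu h := by
  have hxm : x ∈ LinearMap.ker (Submodule.mkQ (Ideal.span {x, w} : Ideal R)) := by
    rw [Submodule.ker_mkQ]
    exact Ideal.subset_span (by simp)
  have hwm : w ∈ LinearMap.ker (Submodule.mkQ (Ideal.span {x, w} : Ideal R)) := by
    rw [Submodule.ker_mkQ]
    exact Ideal.subset_span (by simp)
  set A : LinearMap.ker (Submodule.mkQ (Ideal.span {x, w} : Ideal R)) := ⟨x, hxm⟩ with hA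
  set B : LinearMap.ker (Submodule.mkQ (Ideal.span {x, w} : Ideal R)) := ⟨w, hwm⟩ with hB
  have h1 : w • A = x • B := Subtype.ext (mul_comm w x)
  have h2 : f A * w = f B * x := by
    have := congrArg f h1
    rw [map_smul, map_smul, smul_eq_mul, smul_eq_mul] at this
    linear_combination this
  obtain ⟨s, t, hst⟩ := Ideal.mem_span_pair.mp (h.mem_of_mul h2)
  have h3 : f B = s * w + t * y := by
    apply mul_left_cancel₀ h.ne_zero
    have := h.sq
    linear_combination -h2 + w * (-hst) + t * this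
  refine ⟨s, t, ?_⟩
  ext k
  have hk : (k : R) ∈ (Ideal.span {x, w} : Ideal R) := (Submodule.ker_mkQ _).le k.2
  obtain ⟨p, q, hpq⟩ := Ideal.mem_span_pair.mp hk
  have hk' : k = p • A + q • B := Subtype.ext hpq.symm
  have h4 : f k = p * f A + q * f B := by
    rw [hk', map_add, map_smul, map_smul, smul_eq_mul, smul_eq_mul]
  have h5 : mu h k = p * w + q * y := by
    apply mul_right_cancel₀ h.ne_zero
    rw [mu_mul, ← hpq]
    have := h.sq
    linear_combination q * this
  simp only [LinearMap.add_apply, LinearMap.smul_apply, Submodule.subtype_apply, smul_eq_mul]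
  rw [h4, h5, h3, ← hst, ← hpq]
  ring

/-- `Ext^1(R / P, R) = R / P` for `P = (x, w)`, `w^2 = x y` -/
theorem base (h : Pinch x y w) :
    Nonempty (Abelian.Ext (ModuleCat.of R (R ⧸ (Ideal.span {x, w} : Ideal R)))
      (ModuleCat.of R R) 1 ≃ₗ[R] (R ⧸ (Ideal.span {x, w} : Ideal R))) := by
  have hS := LinearMap.shortExact_shortComplexKer
    (Submodule.mkQ_surjective (Ideal.span {x, w} : Ideal R))
  have hproj : Projective (ModuleCat.of R R) := by
    rw [← IsProjective.iff_projective]
    infer_instance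
  let ξ : Abelian.Ext (ModuleCat.of R (R ⧸ (Ideal.span {x, w} : Ideal R))) (ModuleCat.of R R) 1 :=
    hS.extClass.comp (Abelian.Ext.mk₀ (ModuleCat.ofHom (mu h))) rfl
  let Gm := LinearMap.toSpanSingleton R _ ξ
  have hG : ∀ t : R, Gm t = hS.extClass.comp
      (Abelian.Ext.mk₀ (ModuleCat.ofHom (t • mu h))) rfl := by
    intro t
    change t • ξ = _
    have h1 : (ModuleCat.ofHom (t • mu h) : _ ⟶ ModuleCat.of R R) = t • ModuleCat.ofHom (mu h) := rfl
    rw [h1, Abelian.Ext.mk₀_smul, Abelian.Ext.comp_smul]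
  have hsurj : Function.Surjective Gm := by
    intro e
    obtain ⟨x₁, hx₁⟩ := Abelian.Ext.contravariant_sequence_exact₃ hS (ModuleCat.of R R) e
      (Abelian.Ext.eq_zero_of_projective _) (n₀ := 0) rfl
    obtain ⟨φ, rfl⟩ := (Abelian.Ext.mk₀_bijective _ _).2 x₁
    obtain ⟨s, t, hst⟩ := decomp h φ.hom
    refine ⟨t, ?_⟩
    rw [hG, ← hx₁]
    have h2 : φ = ModuleCat.ofHom (s • (LinearMap.ker (Submodule.mkQ
        (Ideal.span {x, w} : Ideal R))).subtype) + ModuleCat.ofHom (t • mu h) := by
      apply ModuleCat.hom_ext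
      exact hst
    have h3 : (ModuleCat.ofHom (s • (LinearMap.ker (Submodule.mkQ
        (Ideal.span {x, w} : Ideal R))).subtype) : _ ⟶ ModuleCat.of R R) =
        (LinearMap.shortComplexKer (Submodule.mkQ (Ideal.span {x, w} : Ideal R))).f ≫
          (s • 𝟙 (ModuleCat.of R R)) := by
      apply ModuleCat.hom_ext
      rfl
    rw [h2, Abelian.Ext.mk₀_add, Abelian.Ext.comp_add, h3, ← Abelian.Ext.mk₀_comp_mk₀,
      hS.extClass_comp_assoc, zero_add]
  have hker : LinearMap.ker Gm = (Ideal.span {x, w} : Ideal R) := by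
    ext t
    rw [LinearMap.mem_ker]
    constructor
    · intro ht
      rw [hG] at ht
      obtain ⟨x₂, hx₂⟩ := Abelian.Ext.contravariant_sequence_exact₁ hS (ModuleCat.of R R) _ _ ht
      obtain ⟨ψ, rfl⟩ := (Abelian.Ext.mk₀_bijective _ _).2 x₂
      rw [Abelian.Ext.mk₀_comp_mk₀] at hx₂
      have h4 := (Abelian.Ext.mk₀_bijective _ _).1 hx₂
      have hxm : x ∈ LinearMap.ker (Submodule.mkQ (Ideal.span {x, w} : Ideal R)) := by
        rw [Submodule.ker_mkQ]
        exact Ideal.subset_span (by simp)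
      have h5 := congrArg (fun F => F.hom (⟨x, hxm⟩ :
        LinearMap.ker (Submodule.mkQ (Ideal.span {x, w} : Ideal R)))) h4
      have h6 : ψ.hom x = t * mu h ⟨x, hxm⟩ := h5
      have h7 : ψ.hom x = x * ψ.hom 1 := by
        have : x = x • (1 : R) := by simp
        conv_lhs => rw [this]
        rw [map_smul]
        rfl
      have h8 := mu_mul h ⟨x, hxm⟩
      refine h.mem_of_mul (c := ψ.hom 1) ?_
      apply mul_right_cancel₀ h.ne_zero
      have h9 : mu h ⟨x, hxm⟩ * x = x * w := h8
      linear_combination (-t) * h9 - x * h6 + x * h7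
    · intro ht
      change t • ξ = 0
      have h0 : t • 𝟙 (ModuleCat.of R (R ⧸ (Ideal.span {x, w} : Ideal R))) = 0 := by
        apply ModuleCat.hom_ext
        apply LinearMap.ext
        intro m
        obtain ⟨m, rfl⟩ := Ideal.Quotient.mk_surjective m
        change Ideal.Quotient.mk _ (t * m) = 0
        rw [Ideal.Quotient.eq_zero_iff_mem]
        exact Ideal.mul_mem_right _ _ ht
      have h1 : t • ξ = (Abelian.Ext.mk₀ (t • 𝟙 (ModuleCat.of R
          (R ⧸ (Ideal.span {x, w} : Ideal R))))).comp ξ (zero_add 1) := by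
        simp [Abelian.Ext.mk₀_smul]
      rw [h1, h0]
      simp
  exact ⟨((Submodule.quotEquivOfEq _ _ hker.symm).trans
    (LinearMap.quotKerEquivOfSurjective Gm hsurj)).symm⟩

end

theorem t : S_BASE.{u} := by
  intro R _ _ _ _ n x w h
  rw [P_zero]
  exact base h.pinch

end Pool.Agent.Y115.DC
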